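import Pool.Agent.X248.OP.Red

/-!
# Maximal open packings of equal size: correctness
-/

set_option autoImplicit false

namespace Pool.Agent.X248.OP

open Pool.Agent.NPC Pool.Agent.H622R2

variable {φ : List Cl}

theorem hasL_iff {c : ℕ} (hc : c < φ.length) (b : Bool) (i : ℕ) : hasL φ c b i = true ↔
    φ[c].1 = (b, i) ∨ φ[c].2.1 = (b, i) ∨ φ[c].2.2 = (b, i) := by
  unfold hasL
  rw [List.getElem?_eq_getElem hc]
  simp [or_assoc]

theorem hasL_lt {c : ℕ} {b : Bool} {i : ℕ} (h : hasL φ c b i = true) : c < φ.length := by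
  by_contra hcon
  unfold hasL at h
  rw [List.getElem?_eq_none (by omega)] at h
  simp at h

/-- Two labels with a common neighbour are on the same side. -/
theorem com_side {x y : Lab} (h : Com φ x y) : x.1 = y.1 := by
  obtain ⟨t, _, h1, h2⟩ := h
  unfold adj at h1 h2
  revert h1 h2
  cases x.1 <;> cases y.1 <;> cases t.1 <;> simp

theorem com_false {x y : Lab} (hx : x.1 = false) (h : Com φ x y) : y.1 = false ∧
    ∃ t : Lab, t ∈ labs φ ∧ t.1 = true ∧ inc φ x.2 t.2 = true ∧ inc φ y.2 t.2 = true := by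
  have hy := (com_side h).symm.trans hx
  refine ⟨hy, ?_⟩
  obtain ⟨t, ht, h1, h2⟩ := h
  unfold adj at h1 h2
  rw [hx] at h1
  rw [hy] at h2
  simp only [Bool.not_false, Bool.true_and, Bool.false_and, Bool.or_false, Bool.and_eq_true]
    at h1 h2
  exact ⟨t, ht, h1.1, h1.2, h2.2⟩

theorem com_true {x y : Lab} (hx : x.1 = true) (h : Com φ x y) : y.1 = true ∧
    ∃ t : Lab, t ∈ labs φ ∧ t.1 = false ∧ inc φ t.2 x.2 = true ∧ inc φ t.2 y.2 = true := by
  have hy := (com_side h).symm.trans hx
  refine ⟨hy, ?_⟩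
  obtain ⟨t, ht, h1, h2⟩ := h
  unfold adj at h1 h2
  rw [hx] at h1
  rw [hy] at h2
  simp only [Bool.not_true, Bool.false_and, Bool.false_or, Bool.true_and, Bool.and_eq_true,
    Bool.not_eq_true'] at h1 h2
  exact ⟨t, ht, h1.1, h1.2, h2.2⟩

theorem com_of_inc_false {x y t : Lab} (ht : t ∈ labs φ) (hx : x.1 = false) (hy : y.1 = false)
    (htt : t.1 = true) (h1 : inc φ x.2 t.2 = true) (h2 : inc φ y.2 t.2 = true) : Com φ x y := by
  refine ⟨t, ht, ?_, ?_⟩
  · unfold adj; rw [hx, htt, h1]; rfl
  · unfold adj; rw [hy, htt, h2]; rfl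

/-- If the formula is unsatisfiable, every maximal packing hits all slots. -/
theorem all_hit {S : Finset Lab} (hS : MPk φ S) (hun : ¬ SAT3 φ) :
    ∀ a ∈ slotSet φ, ∃ x ∈ S, slot x = a := by
  classical
  rintro ⟨s, o⟩ ha
  by_contra hno
  push Not at hno
  have hn : ∀ x ∈ labs φ, slot x = (s, o) → x ∉ S := fun x _ hx hxS => hno x hxS hx
  unfold slotSet at ha
  simp only [Finset.mem_product, Finset.mem_univ, true_and, Finset.mem_insert, Finset.mem_image,
    Finset.mem_range] at ha
  cases s
  · rcases ha with rfl | ⟨i, hi, rfl⟩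
    · -- the slot of the clauses
      apply hun
      have key : ∀ c (hc : c < φ.length), ∃ b i, (false, 2, i, b) ∈ S ∧
          (φ[c].1 = (b, i) ∨ φ[c].2.1 = (b, i) ∨ φ[c].2.2 = (b, i)) := by
        intro c hc
        have hmem : ((false, 1, c, false) : Lab) ∈ labs φ := by simp [mem_labs, Valid, hc]
        obtain ⟨y, hy, hcom⟩ := hS.2 _ hmem (hn _ hmem (by simp [slot]))
        have hyv := mem_labs.1 (hS.1.1 y hy)
        obtain ⟨hy1, t, ht, ht1, h1, h2⟩ := com_false rfl hcom
        have hysl := hno y hy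
        obtain ⟨ys, yk, yi, yb⟩ := y
        obtain ⟨ts, tk, ti, tb⟩ := t
        simp only at hy1 ht1
        subst hy1 ht1
        simp only [slot, if_true, Bool.false_eq_true, ne_eq, Prod.mk.injEq, true_and] at hysl
        have hyk : ¬ yk ≤ 1 := by
          intro h
          rw [if_pos h] at hysl
          exact hysl rfl
        simp only [inc, Bool.or_eq_true, Bool.and_eq_true, decide_eq_true_eq] at h1 h2
        rcases h1 with ((h1 | h1) | h1) | h1
        · rcases h2 with ((h2 | h2) | h2) | h2 <;> omega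
        · have htk : tk = 2 := h1.1
          have hL : hasL φ c tb ti = true := by
            rcases h1.2 with (h | h) | h
            · omega
            · exact h.2
            · omega
          rcases h2 with ((h2 | h2) | h2) | h2
          · omega
          · rcases h2.2 with (h | h) | h
            · omega
            · omega
            · obtain ⟨h3, h4⟩ := h
              subst h3
              refine ⟨yb, yi, hy, ?_⟩
              have h5 := (hasL_iff (hasL_lt hL) tb ti).1 hL
              rw [Prod.mk.injEq] at h4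
              rw [h4.1, h4.2]
              exact h5
          · omega
          · omega
        · omega
        · omega
      refine ⟨fun i => decide ((false, 2, i, true) ∈ S), ?_⟩
      intro cl hcl
      obtain ⟨c, hc, rfl⟩ := List.getElem_of_mem hcl
      obtain ⟨b, i, hmem, h⟩ := key c hc
      have hval : decide (((false, 2, i, true) : Lab) ∈ S) = b := by
        cases b
        · rw [decide_eq_false_iff_not]
          intro h'
          have := slot_inj hS.1 (Finset.mem_coe.2 hmem) (Finset.mem_coe.2 h') (by simp [slot])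
          simp at this
        · rw [decide_eq_true_eq]
          exact hmem
      rcases h with h | h | h
      · left; rw [h]; exact hval
      · right; left; rw [h]; exact hval
      · right; right; rw [h]; exact hval
    · -- the slot of a variable
      have hmem : ((false, 3, i, false) : Lab) ∈ labs φ := by simp [mem_labs, Valid, hi]
      obtain ⟨y, hy, hcom⟩ := hS.2 _ hmem (hn _ hmem (by simp [slot]))
      obtain ⟨hy1, t, ht, ht1, h1, h2⟩ := com_false rfl hcom
      apply hno y hy
      obtain ⟨ys, yk, yi, yb⟩ := y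
      obtain ⟨ts, tk, ti, tb⟩ := t
      simp only at hy1 ht1
      subst hy1 ht1
      simp only [inc, Bool.or_eq_true, Bool.and_eq_true, decide_eq_true_eq] at h1 h2
      have h3 : (tk = 3 ∨ tk = 4) ∧ i = ti := by
        rcases h1 with ((h1 | h1) | h1) | h1
        · omega
        · rcases h1.2 with (h | h) | h <;> omega
        · exact ⟨Or.inl h1.1, h1.2.2⟩
        · exact ⟨Or.inr h1.1, h1.2.2⟩
      have h4 : (yk = 2 ∨ yk = 3) ∧ yi = ti := by
        rcases h2 with ((h2 | h2) | h2) | h2
        · omega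
        · omega
        · exact h2.2
        · exact ⟨Or.inr h2.2.1, h2.2.2⟩
      simp only [slot, if_true]
      rw [if_neg (by omega), h4.2, h3.2]
  · rcases ha with rfl | ⟨i, hi, rfl⟩
    · have hmem : ((true, 0, 0, false) : Lab) ∈ labs φ := by simp [mem_labs, Valid]
      obtain ⟨y, hy, hcom⟩ := hS.2 _ hmem (hn _ hmem (by simp [slot]))
      obtain ⟨hy1, t, ht, ht1, h1, h2⟩ := com_true rfl hcom
      apply hno y hy
      obtain ⟨ys, yk, yi, yb⟩ := y
      obtain ⟨ts, tk, ti, tb⟩ := t
      simp only at hy1 ht1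
      subst hy1 ht1
      simp only [inc, Bool.or_eq_true, Bool.and_eq_true, decide_eq_true_eq] at h1 h2
      simp only [slot, Bool.true_eq_false, if_false]
      rw [if_pos (by omega)]
    · have hmem : ((true, 4, i, false) : Lab) ∈ labs φ := by simp [mem_labs, Valid, hi]
      obtain ⟨y, hy, hcom⟩ := hS.2 _ hmem (hn _ hmem (by simp [slot]))
      obtain ⟨hy1, t, ht, ht1, h1, h2⟩ := com_true rfl hcom
      apply hno y hy
      obtain ⟨ys, yk, yi, yb⟩ := y
      obtain ⟨ts, tk, ti, tb⟩ := t
      simp only at hy1 ht1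
      subst hy1 ht1
      simp only [inc, Bool.or_eq_true, Bool.and_eq_true, decide_eq_true_eq] at h1 h2
      simp only [slot, Bool.true_eq_false, if_false]
      have h3 : tk = 3 ∧ ti = i := by
        rcases h1 with ((h1 | h1) | h1) | h1
        · omega
        · omega
        · omega
        · exact h1.2
      have h4 : (yk = 3 ∨ yk = 4) ∧ ti = yi := by
        rcases h2 with ((h2 | h2) | h2) | h2
        · omega
        · omega
        · exact ⟨Or.inl h2.1, h2.2.2⟩
        · exact ⟨Or.inr h2.1, h2.2.2⟩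
      rw [if_neg (by omega), ← h4.2, h3.2]

/-- The sets used for satisfiable formulas. -/
def setA (φ : List Cl) : Finset Lab :=
  {(false, 0, 0, false), (true, 0, 0, false)} ∪
    ((Finset.range (3 * φ.length)).image (fun i => ((false, 3, i, false) : Lab)) ∪
      (Finset.range (3 * φ.length)).image (fun i => ((true, 4, i, false) : Lab)))

/-- The set of an assignment. -/
def setB (φ : List Cl) (τ : ℕ → Bool) : Finset Lab :=
  {(true, 0, 0, false)} ∪
    ((Finset.range (3 * φ.length)).image (fun i => ((false, 2, i, τ i) : Lab)) ∪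
      (Finset.range (3 * φ.length)).image (fun i => ((true, 4, i, false) : Lab)))

theorem mem_setA {x : Lab} : x ∈ setA φ ↔ x = (false, 0, 0, false) ∨ x = (true, 0, 0, false) ∨
    (∃ i < 3 * φ.length, x = (false, 3, i, false)) ∨
    ∃ i < 3 * φ.length, x = (true, 4, i, false) := by
  unfold setA
  simp only [Finset.mem_union, Finset.mem_insert, Finset.mem_singleton, Finset.mem_image,
    Finset.mem_range, or_assoc]
  simp only [eq_comm]

theorem mem_setB {τ : ℕ → Bool} {x : Lab} : x ∈ setB φ τ ↔ x = (true, 0, 0, false) ∨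
    (∃ i < 3 * φ.length, x = (false, 2, i, τ i)) ∨
    ∃ i < 3 * φ.length, x = (true, 4, i, false) := by
  unfold setB
  simp only [Finset.mem_union, Finset.mem_singleton, Finset.mem_image,
    Finset.mem_range, or_assoc]
  simp only [eq_comm]

/-- Points without a common hyperedge. -/
theorem not_com_z {i j : ℕ} {k : ℕ} {b : Bool} (h : k = 0 ∨ i ≠ j) :
    ¬ Com φ (false, 3, i, false) (false, k, j, b) := by
  intro hcom
  obtain ⟨_, t, ht, ht1, h1, h2⟩ := com_false rfl hcom
  obtain ⟨ts, tk, ti, tb⟩ := t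
  simp only [inc, Bool.or_eq_true, Bool.and_eq_true, decide_eq_true_eq] at h1 h2
  rcases h1 with ((h1 | h1) | h1) | h1
  · omega
  · rcases h1.2 with (h | h) | h <;> omega
  · rcases h2 with ((h2 | h2) | h2) | h2 <;> omega
  · rcases h2 with ((h2 | h2) | h2) | h2 <;> omega

theorem not_com_Z {i j : ℕ} {k : ℕ} {b : Bool} (h : k = 0 ∨ (k = 4 ∧ i ≠ j)) :
    ¬ Com φ (true, 4, i, false) (true, k, j, b) := by
  intro hcom
  obtain ⟨_, t, ht, ht1, h1, h2⟩ := com_true rfl hcom
  obtain ⟨ts, tk, ti, tb⟩ := t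
  simp only [inc, Bool.or_eq_true, Bool.and_eq_true, decide_eq_true_eq] at h1 h2
  rcases h1 with ((h1 | h1) | h1) | h1
  · omega
  · omega
  · omega
  · rcases h2 with ((h2 | h2) | h2) | h2 <;> omega

theorem not_com_lit {i j : ℕ} {b b' : Bool} (h : i ≠ j) :
    ¬ Com φ (false, 2, i, b) (false, 2, j, b') := by
  intro hcom
  obtain ⟨_, t, ht, ht1, h1, h2⟩ := com_false rfl hcom
  obtain ⟨ts, tk, ti, tb⟩ := t
  simp only [inc, Bool.or_eq_true, Bool.and_eq_true, decide_eq_true_eq] at h1 h2
  rcases h1 with ((h1 | h1) | h1) | h1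
  · omega
  · rcases h1.2 with (h3 | h3) | h3
    · omega
    · omega
    · rcases h2 with ((h2 | h2) | h2) | h2
      · omega
      · rcases h2.2 with (h4 | h4) | h4
        · omega
        · omega
        · have e1 := congrArg Prod.fst h3.2
          have e2 := congrArg Prod.fst h4.2
          simp only at e1 e2
          omega
      · omega
      · omega
  · rcases h2 with ((h2 | h2) | h2) | h2 <;> omega
  · omega

theorem pk_A : Pk φ (setA φ) := by
  constructor
  · intro x hx
    rw [mem_setA] at hx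
    rw [mem_labs]
    rcases hx with rfl | rfl | ⟨i, hi, rfl⟩ | ⟨i, hi, rfl⟩
    · simp [Valid]
    · simp [Valid]
    · simp [Valid, hi]
    · simp [Valid, hi]
  · intro x hx y hy hne hcom
    have hside := com_side hcom
    rw [mem_setA] at hx hy
    rcases hx with rfl | rfl | ⟨i, hi, rfl⟩ | ⟨i, hi, rfl⟩ <;>
      rcases hy with rfl | rfl | ⟨j, hj, rfl⟩ | ⟨j, hj, rfl⟩ <;>
      simp only [Bool.false_eq_true, Bool.true_eq_false] at hside
    · exact hne rfl
    · exact not_com_z (Or.inl rfl) hcom.symm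
    · exact hne rfl
    · exact not_com_Z (Or.inl rfl) hcom.symm
    · exact not_com_z (Or.inl rfl) hcom
    · exact not_com_z (Or.inr (fun h => hne (by rw [h]))) hcom
    · exact not_com_Z (Or.inl rfl) hcom
    · exact not_com_Z (Or.inr ⟨rfl, fun h => hne (by rw [h])⟩) hcom

theorem all_A : ∀ a ∈ slotSet φ, ∃ x ∈ setA φ, slot x = a := by
  rintro ⟨s, o⟩ ha
  unfold slotSet at ha
  simp only [Finset.mem_product, Finset.mem_univ, true_and, Finset.mem_insert, Finset.mem_image,
    Finset.mem_range] at ha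
  cases s
  · rcases ha with rfl | ⟨i, hi, rfl⟩
    · exact ⟨(false, 0, 0, false), by simp [mem_setA], by simp [slot]⟩
    · exact ⟨(false, 3, i, false), mem_setA.2 (Or.inr (Or.inr (Or.inl ⟨i, hi, rfl⟩))),
        by simp [slot]⟩
  · rcases ha with rfl | ⟨i, hi, rfl⟩
    · exact ⟨(true, 0, 0, false), by simp [mem_setA], by simp [slot]⟩
    · exact ⟨(true, 4, i, false), mem_setA.2 (Or.inr (Or.inr (Or.inr ⟨i, hi, rfl⟩))),
        by simp [slot]⟩

theorem pk_B (τ : ℕ → Bool) : Pk φ (setB φ τ) := by
  constructor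
  · intro x hx
    rw [mem_setB] at hx
    rw [mem_labs]
    rcases hx with rfl | ⟨i, hi, rfl⟩ | ⟨i, hi, rfl⟩
    · simp [Valid]
    · simp [Valid, hi]
    · simp [Valid, hi]
  · intro x hx y hy hne hcom
    have hside := com_side hcom
    rw [mem_setB] at hx hy
    rcases hx with rfl | ⟨i, hi, rfl⟩ | ⟨i, hi, rfl⟩ <;>
      rcases hy with rfl | ⟨j, hj, rfl⟩ | ⟨j, hj, rfl⟩ <;>
      simp only [Bool.false_eq_true, Bool.true_eq_false] at hside
    · exact hne rfl
    · exact not_com_Z (Or.inl rfl) hcom.symm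
    · exact not_com_lit (fun h => hne (by rw [h])) hcom
    · exact not_com_Z (Or.inl rfl) hcom
    · exact not_com_Z (Or.inr ⟨rfl, fun h => hne (by rw [h])⟩) hcom

theorem slot_B (τ : ℕ → Bool) : (setB φ τ).image slot = (slotSet φ).erase (false, none) := by
  ext a
  obtain ⟨s, o⟩ := a
  rw [Finset.mem_image, Finset.mem_erase]
  unfold slotSet
  simp only [Finset.mem_product, Finset.mem_univ, true_and, Finset.mem_insert, Finset.mem_image,
    Finset.mem_range]
  constructor
  · rintro ⟨x, hx, hxs⟩
    rw [mem_setB] at hx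
    rcases hx with rfl | ⟨i, hi, rfl⟩ | ⟨i, hi, rfl⟩
    · simp [slot] at hxs
      obtain ⟨rfl, rfl⟩ := hxs
      simp
    · simp [slot] at hxs
      obtain ⟨rfl, rfl⟩ := hxs
      exact ⟨by simp, Or.inr ⟨i, hi, rfl⟩⟩
    · simp [slot] at hxs
      obtain ⟨rfl, rfl⟩ := hxs
      exact ⟨by simp, Or.inr ⟨i, hi, rfl⟩⟩
  · rintro ⟨hne, h⟩
    cases s
    · rcases h with rfl | ⟨i, hi, rfl⟩
      · exact absurd rfl hne
      · exact ⟨(false, 2, i, τ i), mem_setB.2 (Or.inr (Or.inl ⟨i, hi, rfl⟩)), by simp [slot]⟩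
    · rcases h with rfl | ⟨i, hi, rfl⟩
      · exact ⟨(true, 0, 0, false), by simp [mem_setB], by simp [slot]⟩
      · exact ⟨(true, 4, i, false), mem_setB.2 (Or.inr (Or.inr ⟨i, hi, rfl⟩)), by simp [slot]⟩

theorem card_B (τ : ℕ → Bool) : (setB φ τ).card + 1 = 2 * (3 * φ.length + 1) := by
  rw [card_slots (pk_B τ), slot_B, Finset.card_erase_of_mem, slotSet_card]
  · omega
  · simp [slotSet]

theorem mpk_B {τ : ℕ → Bool} (hb : Bounded3 φ) (hne : φ ≠ []) (hτ : ∀ c ∈ φ,
    τ c.1.2 = c.1.1 ∨ τ c.2.1.2 = c.2.1.1 ∨ τ c.2.2.2 = c.2.2.1) : MPk φ (setB φ τ) := by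
  refine ⟨pk_B τ, fun x hx hxS => ?_⟩
  by_cases hs : slot x = (false, none)
  · -- the vertex `w` or a clause
    have hlen : 0 < φ.length := List.length_pos_iff.2 hne
    obtain ⟨s, k, i, b⟩ := x
    simp only [slot, Prod.mk.injEq] at hs
    obtain ⟨rfl, hs⟩ := hs
    simp only [if_true, ite_eq_left_iff, not_le, reduceCtorEq, imp_false, not_lt] at hs
    have hv := mem_labs.1 hx
    simp only [Valid] at hv
    rcases hv with h | h | h | h | h
    · obtain ⟨rfl, h⟩ := h
      rw [h]
      refine ⟨(false, 2, 0, τ 0), mem_setB.2 (Or.inr (Or.inl ⟨0, by omega, rfl⟩)), ?_⟩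
      refine com_of_inc_false (t := (true, 2, 0, τ 0)) ?_ rfl rfl rfl ?_ ?_
      · simp [mem_labs, Valid, hlen]
      · simp [inc]
      · simp [inc]
    · obtain ⟨-, rfl, hi, rfl⟩ := h
      have key : ∀ l : Bool × ℕ, l.2 < 3 * φ.length → τ l.2 = l.1 → hasL φ i l.1 l.2 = true →
          ∃ y ∈ setB φ τ, Com φ (false, 1, i, false) y := by
        intro l hl hτl hh
        refine ⟨(false, 2, l.2, τ l.2), mem_setB.2 (Or.inr (Or.inl ⟨l.2, hl, rfl⟩)), ?_⟩
        refine com_of_inc_false (t := (true, 2, l.2, τ l.2)) ?_ rfl rfl rfl ?_ ?_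
        · simp [mem_labs, Valid, hl]
        · simp only [inc, Bool.or_eq_true, Bool.and_eq_true, decide_eq_true_eq]
          left; left; right
          refine ⟨trivial, Or.inl (Or.inr ⟨trivial, ?_⟩)⟩
          rw [hτl]; exact hh
        · simp [inc]
      have hb' := hb _ (List.getElem_mem hi)
      rcases hτ _ (List.getElem_mem hi) with h | h | h
      · exact key φ[i].1 hb'.1 h ((hasL_iff hi _ _).2 (Or.inl rfl))
      · exact key φ[i].2.1 hb'.2.1 h ((hasL_iff hi _ _).2 (Or.inr (Or.inl rfl)))
      · exact key φ[i].2.2 hb'.2.2 h ((hasL_iff hi _ _).2 (Or.inr (Or.inr rfl)))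
    · omega
    · omega
    · omega
  · have h1 : slot x ∈ (setB φ τ).image slot := by
      rw [slot_B, Finset.mem_erase]
      exact ⟨hs, slot_mem hx⟩
    obtain ⟨y, hy, hxy⟩ := Finset.mem_image.1 h1
    exact ⟨y, hy, com_of_slot hx ((pk_B τ).1 y hy) hxy.symm⟩

/-- The set of vertices of a set of labels. -/
def toV (φ : List Cl) (S : Finset Lab) : Finset {x // x ∈ labs φ} := S.subtype (· ∈ labs φ)

theorem toV_map {S : Finset Lab} (h : ∀ x ∈ S, x ∈ labs φ) :
    (toV φ S).map (Function.Embedding.subtype _) = S := by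
  ext x
  simp only [toV, Finset.subtype_map, Finset.mem_filter]
  exact ⟨fun h => h.1, fun h' => ⟨h', h x h'⟩⟩

/-- **Correctness.** -/
theorem equal_iff (hb : Bounded3 φ) (hne : φ ≠ []) : SAT3 φ ↔ ¬ EqualPackings (GG φ) := by
  constructor
  · rintro ⟨τ, hτ⟩ h
    have hA := mpk_of_all (pk_A (φ := φ)) all_A
    have hB := mpk_B hb hne hτ
    have eA := toV_map hA.1.1.1
    have eB := toV_map hB.1.1
    have h1 := h (toV φ (setA φ)) (toV φ (setB φ τ)) (by rw [← mpk_map, eA]; exact hA.1)
      (by rw [← mpk_map, eB]; exact hB)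
    have c1 := congrArg Finset.card eA
    have c2 := congrArg Finset.card eB
    rw [Finset.card_map] at c1 c2
    have c3 := hA.2
    have c4 := card_B (φ := φ) τ
    omega
  · intro h
    by_contra hun
    apply h
    have key : ∀ S : Finset {x // x ∈ labs φ}, MaxPacking (GG φ) S →
        S.card = 2 * (3 * φ.length + 1) := by
      intro S hS
      rw [← mpk_map] at hS
      have := (mpk_of_all hS.1 (all_hit hS hun)).2
      rwa [Finset.card_map] at this
    intro S T hS hT
    rw [key S hS, key T hT]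

end Pool.Agent.X248.OP
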