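import Pool.Agent.X248.OP.Corr
import Pool.Agent.X248.Core.Mem

/-!
# Maximal open packings of equal size: polynomial time and membership
-/

set_option autoImplicit false

namespace Pool.Agent.X248.OP

open Pool.Agent.NPC Pool.Agent.H622R2
open Pool.Agent.H495R3 (adjB adjB_iff)
open Pool.Agent.X248.Core (setOf cnt setOf_card charL charL_length charL_getD setOf_charL)

section PolyTime

variable {α : Type} [TEnc α]

theorem poly_hasL {φ : α → List Cl} {c i : α → ℕ} {b : α → Bool} (h1 : Poly φ) (h2 : Poly c)
    (h3 : Poly b) (h4 : Poly i) : Poly (fun a => hasL (φ a) (c a) (b a) (i a)) := by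
  unfold hasL
  fun_prop

attribute [local fun_prop] poly_hasL

theorem poly_inc {φ : α → List Cl} {x e : α → ℕ × ℕ × Bool} (h1 : Poly φ) (h2 : Poly x)
    (h3 : Poly e) : Poly (fun a => inc (φ a) (x a) (e a)) := by
  unfold inc
  fun_prop

attribute [local fun_prop] poly_inc

theorem poly_adj : Poly (fun p : (List Cl × Lab) × Lab => adj p.1.1 p.1.2 p.2) := by
  unfold adj
  fun_prop

theorem poly_labs : Poly labs := by
  unfold labs
  have hr : Poly (fun φ : List Cl => List.range (3 * φ.length)) :=
    ((UPoly.const 3).mul (UPoly.length Poly.id)).range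
  have hr2 : Poly (fun φ : List Cl => List.range φ.length) := Poly.range_length Poly.id
  fun_prop

/-- The reduction. -/
def red (φ : List Cl) : List (List Bool) := mat (labs φ) (adj φ)

theorem poly_red : Poly red := mat_poly poly_labs poly_adj

end PolyTime

/-- **Hardness**, on bipartite graphs. -/
theorem hardPr_op : HardPr (fun M : List (List Bool) => (matGraph M).IsBipartite)
    (fun M => ¬ EqualPackings (matGraph M)) := by
  refine hardPr_SAT3b.trans poly_red ?_ ?_
  · intro φ _
    have e := matIso (labs φ) (adj φ) labs_nodup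
    exact (GG_bipartite (φ := φ)).of_hom e.toHom
  · rintro φ ⟨_, hb, hne⟩
    have e := matIso (labs φ) (adj φ) labs_nodup
    rw [equal_iff hb hne]
    exact not_congr ⟨fun h => EqualPackings.of_iso e h, fun h => EqualPackings.of_iso e.symm h⟩

/-! ### Membership -/

/-- The test of an open packing. -/
def pkB (M : List (List Bool)) (s : List Bool) : Bool :=
  (List.range M.length).all fun u => (List.range M.length).all fun v =>
    (List.range M.length).all fun t =>
      !(s.getD u false && s.getD v false && !decide (u = v) && adjB M u t && adjB M v t)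

/-- The test of maximality. -/
def mxB (M : List (List Bool)) (s : List Bool) : Bool :=
  (List.range M.length).all fun u => s.getD u false ||
    (List.range M.length).any fun v => s.getD v false &&
      (List.range M.length).any fun t => adjB M u t && adjB M v t

/-- The verifier. -/
def ver (p : List (List Bool) × List Bool × List Bool) : Bool :=
  pkB p.1 p.2.1 && mxB p.1 p.2.1 && pkB p.1 p.2.2 && mxB p.1 p.2.2 &&
    !decide (cnt p.1.length (fun i => p.2.1.getD i false) =
      cnt p.1.length (fun i => p.2.2.getD i false))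

theorem poly_pkB {α : Type} [TEnc α] {M : α → List (List Bool)} {s : α → List Bool}
    (hM : Poly M) (hs : Poly s) : Poly (fun a => pkB (M a) (s a)) := by
  have h : Poly (fun p : List (List Bool) × List Bool => pkB p.1 p.2) := by
    unfold pkB
    refine Poly.all (p := fun (p : List (List Bool) × List Bool) u =>
      (List.range p.1.length).all fun v => (List.range p.1.length).all fun t =>
      !(p.2.getD u false && p.2.getD v false && !decide (u = v) && adjB p.1 u t && adjB p.1 v t))
      (Poly.range_length (by fun_prop)) ?_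
    refine Poly.all (p := fun (p : (List (List Bool) × List Bool) × ℕ) v =>
      (List.range p.1.1.length).all fun t =>
      !(p.1.2.getD p.2 false && p.1.2.getD v false && !decide (p.2 = v) && adjB p.1.1 p.2 t &&
        adjB p.1.1 v t))
      (Poly.range_length (by fun_prop)) ?_
    refine Poly.all (p := fun (p : ((List (List Bool) × List Bool) × ℕ) × ℕ) t =>
      !(p.1.1.2.getD p.1.2 false && p.1.1.2.getD p.2 false && !decide (p.1.2 = p.2) &&
        adjB p.1.1.1 p.1.2 t && adjB p.1.1.1 p.2 t))
      (Poly.range_length (by fun_prop)) (by fun_prop)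
  exact h.comp (Poly.pair hM hs)

theorem poly_mxB {α : Type} [TEnc α] {M : α → List (List Bool)} {s : α → List Bool}
    (hM : Poly M) (hs : Poly s) : Poly (fun a => mxB (M a) (s a)) := by
  have h : Poly (fun p : List (List Bool) × List Bool => mxB p.1 p.2) := by
    unfold mxB
    refine Poly.all (p := fun (p : List (List Bool) × List Bool) u => p.2.getD u false ||
      (List.range p.1.length).any fun v => p.2.getD v false &&
      (List.range p.1.length).any fun t => adjB p.1 u t && adjB p.1 v t)
      (Poly.range_length (by fun_prop)) ?_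
    refine Poly.or (by fun_prop) ?_
    refine Poly.any (p := fun (p : (List (List Bool) × List Bool) × ℕ) v => p.1.2.getD v false &&
      (List.range p.1.1.length).any fun t => adjB p.1.1 p.2 t && adjB p.1.1 v t)
      (Poly.range_length (by fun_prop)) ?_
    refine Poly.and (by fun_prop) ?_
    exact Poly.any (p := fun (p : ((List (List Bool) × List Bool) × ℕ) × ℕ) t =>
      adjB p.1.1.1 p.1.2 t && adjB p.1.1.1 p.2 t)
      (Poly.range_length (by fun_prop)) (by fun_prop)
  exact h.comp (Poly.pair hM hs)

theorem poly_cnt {α : Type} [TEnc α] {M : α → List (List Bool)} {s : α → List Bool}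
    (hM : Poly M) (hs : Poly s) :
    Poly (fun a => cnt (M a).length (fun i => (s a).getD i false)) := by
  unfold cnt
  exact Poly.length (Poly.filter (p := fun a i => (s a).getD i false)
    (Poly.range_length hM) (by fun_prop))

theorem ver_poly : Poly ver := by
  unfold ver
  exact Poly.and (Poly.and (Poly.and (Poly.and (poly_pkB (by fun_prop) (by fun_prop))
    (poly_mxB (by fun_prop) (by fun_prop))) (poly_pkB (by fun_prop) (by fun_prop)))
    (poly_mxB (by fun_prop) (by fun_prop)))
    (Poly.not (Poly.dec_eq (poly_cnt (by fun_prop) (by fun_prop))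
      (poly_cnt (by fun_prop) (by fun_prop))))

theorem mem_setOf_iff {n : ℕ} {s : List Bool} {i : Fin n} :
    i ∈ setOf n s ↔ s.getD i.1 false = true := by
  simp only [Core.setOf, Finset.mem_filter, Finset.mem_univ, true_and]

theorem pkB_iff (M : List (List Bool)) (s : List Bool) :
    pkB M s = true ↔ OpenPacking (matGraph M) (setOf M.length s) := by
  unfold pkB OpenPacking
  simp only [List.all_eq_true, List.mem_range, Bool.not_eq_true']
  constructor
  · intro h u hu v hv huv t ht
    rw [mem_setOf_iff] at hu hv
    have := h u u.2 v v.2 t t.2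
    rw [hu, hv, decide_eq_false (fun h => huv (Fin.ext h)), (adjB_iff M u t).2 ht.1,
      (adjB_iff M v t).2 ht.2] at this
    simp at this
  · intro h u hu v hv t ht
    by_contra hcon
    simp only [Bool.not_eq_false, Bool.and_eq_true, Bool.not_eq_true',
      decide_eq_false_iff_not] at hcon
    obtain ⟨⟨⟨⟨h1, h2⟩, h3⟩, h4⟩, h5⟩ := hcon
    exact h ⟨u, hu⟩ (mem_setOf_iff.2 h1) ⟨v, hv⟩ (mem_setOf_iff.2 h2)
      (fun h' => h3 (congrArg Fin.val h')) ⟨t, ht⟩
      ⟨(adjB_iff M ⟨u, hu⟩ ⟨t, ht⟩).1 h4, (adjB_iff M ⟨v, hv⟩ ⟨t, ht⟩).1 h5⟩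

theorem maxPacking_iff {V : Type} [DecidableEq V] {G : SimpleGraph V} {S : Finset V} :
    MaxPacking G S ↔ OpenPacking G S ∧
      ∀ u, u ∉ S → ∃ v ∈ S, ∃ t, G.Adj u t ∧ G.Adj v t := by
  unfold MaxPacking
  refine and_congr_right fun hp => ?_
  constructor
  · intro h u hu
    by_contra hcon
    push Not at hcon
    refine h (insert u S) (Finset.ssubset_insert hu) ?_
    intro a ha b hb hab t ht
    rcases Finset.mem_insert.1 ha with ha' | ha'
    · rcases Finset.mem_insert.1 hb with hb' | hb'
      · exact hab (ha'.trans hb'.symm)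
      · rw [ha'] at ht
        exact hcon b hb' t ht.1 ht.2
    · rcases Finset.mem_insert.1 hb with hb' | hb'
      · rw [hb'] at ht
        exact hcon a ha' t ht.2 ht.1
      · exact hp a ha' b hb' hab t ht
  · intro h T hST hT
    obtain ⟨x, hxT, hxS⟩ := Finset.exists_of_ssubset hST
    obtain ⟨v, hv, t, h1, h2⟩ := h x hxS
    exact hT x hxT v (hST.1 hv) (fun h' => hxS (by rw [h']; exact hv)) t ⟨h1, h2⟩

theorem mxB_iff (M : List (List Bool)) (s : List Bool) :
    (pkB M s = true ∧ mxB M s = true) ↔ MaxPacking (matGraph M) (setOf M.length s) := by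
  rw [maxPacking_iff, pkB_iff]
  refine and_congr_right fun _ => ?_
  unfold mxB
  simp only [List.all_eq_true, List.mem_range, Bool.or_eq_true, List.any_eq_true,
    Bool.and_eq_true]
  constructor
  · intro h u hu
    rcases h u u.2 with h1 | ⟨v, hv, h1, t, ht, h2, h3⟩
    · exact absurd (mem_setOf_iff.2 h1) hu
    · exact ⟨⟨v, hv⟩, mem_setOf_iff.2 h1, ⟨t, ht⟩, (adjB_iff M u ⟨t, ht⟩).1 h2,
        (adjB_iff M ⟨v, hv⟩ ⟨t, ht⟩).1 h3⟩
  · intro h u hu
    by_cases h1 : s.getD u false = true
    · exact Or.inl h1
    · right
      obtain ⟨v, hv, t, h2, h3⟩ := h ⟨u, hu⟩ (fun h' => h1 (mem_setOf_iff.1 h'))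
      exact ⟨v, v.2, mem_setOf_iff.1 hv, t, t.2, (adjB_iff M ⟨u, hu⟩ t).2 h2,
        (adjB_iff M v t).2 h3⟩

theorem not_equal_iff (M : List (List Bool)) : ¬ EqualPackings (matGraph M) ↔
    ∃ w : List Bool × List Bool, sz w ≤ (Polynomial.C 8 * Polynomial.X + Polynomial.C 8 :
      Polynomial ℕ).eval (sz M) ∧ ver (M, w) = true := by
  have key : ∀ s t : List Bool, ver (M, s, t) = true ↔
      (MaxPacking (matGraph M) (setOf M.length s) ∧ MaxPacking (matGraph M) (setOf M.length t) ∧
        (setOf M.length s).card ≠ (setOf M.length t).card) := by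
    intro s t
    rw [← mxB_iff, ← mxB_iff, setOf_card, setOf_card]
    unfold ver
    simp only [Bool.and_eq_true, Bool.not_eq_true', decide_eq_false_iff_not, and_assoc, ne_eq]
  constructor
  · intro h
    unfold EqualPackings at h
    push Not at h
    obtain ⟨S, T, hS, hT, hST⟩ := h
    refine ⟨(charL S, charL T), ?_, ?_⟩
    · have e1 := charL_length S
      have e2 := charL_length T
      have e3 := sz_listBool_le (charL S)
      have e4 := sz_listBool_le (charL T)
      have e5 := length_lt_sz M
      simp only [sz_pair, Polynomial.eval_add, Polynomial.eval_mul, Polynomial.eval_C,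
        Polynomial.eval_X]
      omega
    · rw [key, setOf_charL, setOf_charL]
      exact ⟨hS, hT, hST⟩
  · rintro ⟨⟨s, t⟩, -, h⟩ hE
    obtain ⟨h1, h2, h3⟩ := (key s t).1 h
    exact h3 (hE _ _ h1 h2)

theorem inCoNP : InCoNPP (fun M : List (List Bool) => EqualPackings (matGraph M)) :=
  inCoNPP_of ver_poly _ not_equal_iff

end Pool.Agent.X248.OP
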