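import Pool.Agent.H622R2.MatGraph
import Pool.Agent.H622R2.Base
import Pool.Agent.NPC.Sat2
import Pool.Agent.H671R2.PolyAuto

/-!
# Maximal open packings of equal size: the graph of a formula
-/

set_option autoImplicit false

namespace Pool.Agent.X248.OP

open Pool.Agent.NPC Pool.Agent.H622R2

section Defs

variable {V : Type} (G : SimpleGraph V)

/-- An open packing: no vertex has two neighbours in the set. -/
def OpenPacking (S : Finset V) : Prop :=
  ∀ u ∈ S, ∀ v ∈ S, u ≠ v → ∀ t, ¬ (G.Adj u t ∧ G.Adj v t)

/-- A maximal open packing: no proper superset is an open packing. -/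
def MaxPacking (S : Finset V) : Prop :=
  OpenPacking G S ∧ ∀ T : Finset V, S ⊂ T → ¬ OpenPacking G T

/-- All maximal open packings have the same size. -/
def EqualPackings : Prop :=
  ∀ S T : Finset V, MaxPacking G S → MaxPacking G T → S.card = T.card

end Defs

section Iso

variable {V W : Type} {G : SimpleGraph V} {H : SimpleGraph W}

theorem packing_map (e : G ≃g H) {S : Finset V} :
    OpenPacking H (S.map e.toEquiv.toEmbedding) ↔ OpenPacking G S := by
  constructor
  · intro h u hu v hv huv t ht
    exact h (e u) (Finset.mem_map_of_mem _ hu) (e v) (Finset.mem_map_of_mem _ hv)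
      (fun h' => huv (e.injective h')) (e t) ⟨e.map_adj_iff.2 ht.1, e.map_adj_iff.2 ht.2⟩
  · intro h u hu v hv huv t ht
    obtain ⟨a, ha, rfl⟩ := Finset.mem_map.1 hu
    obtain ⟨b, hb, rfl⟩ := Finset.mem_map.1 hv
    obtain ⟨s, rfl⟩ := e.surjective t
    exact h a ha b hb (fun h' => huv (by rw [h'])) s
      ⟨e.map_adj_iff.1 ht.1, e.map_adj_iff.1 ht.2⟩

theorem maxPacking_map (e : G ≃g H) {S : Finset V} (h : MaxPacking G S) :
    MaxPacking H (S.map e.toEquiv.toEmbedding) := by
  refine ⟨(packing_map e).2 h.1, fun T hT hp => ?_⟩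
  refine h.2 (T.map e.symm.toEquiv.toEmbedding) ?_ ((packing_map e.symm).2 hp)
  have h1 : (S.map e.toEquiv.toEmbedding).map e.symm.toEquiv.toEmbedding = S := by
    ext v
    simp only [Finset.mem_map]
    constructor
    · rintro ⟨w, ⟨a, ha, rfl⟩, rfl⟩
      have : e.symm.toEquiv.toEmbedding (e.toEquiv.toEmbedding a) = a := e.symm_apply_apply a
      rw [this]
      exact ha
    · intro hv
      exact ⟨e v, ⟨v, hv, rfl⟩, e.symm_apply_apply v⟩
  rw [← h1]
  exact Finset.map_ssubset_map.2 hT

theorem EqualPackings.of_iso (e : G ≃g H) (h : EqualPackings H) : EqualPackings G := by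
  intro S T hS hT
  have := h _ _ (maxPacking_map e hS) (maxPacking_map e hT)
  rwa [Finset.card_map, Finset.card_map] at this

end Iso

/-- Clauses. -/
abbrev Cl := (Bool × ℕ) × (Bool × ℕ) × (Bool × ℕ)

/-- The clause with number `c` contains the literal. -/
def hasL (φ : List Cl) (c : ℕ) (b : Bool) (i : ℕ) : Bool :=
  (φ[c]?).any fun cl => decide (cl.1 = (b, i)) || decide (cl.2.1 = (b, i)) ||
    decide (cl.2.2 = (b, i))

/-- Labels: side, kind, number, sign. On the side `false` the kinds are: `0` the vertex `w`, `1` a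
clause, `2` a literal, `3` the vertex `z_i`. On the side `true` they are: `0` the hyperedge of `w`
and all clauses, `2` the hyperedge of a literal, `3` the hyperedge `{x_i, ¬x_i, z_i}`, `4` the
hyperedge `{z_i}`. -/
abbrev Lab := Bool × ℕ × ℕ × Bool

/-- Membership of a point in a hyperedge. -/
def inc (φ : List Cl) (x e : ℕ × ℕ × Bool) : Bool :=
  (decide (e.1 = 0) && (decide (x.1 = 0) || decide (x.1 = 1))) ||
  (decide (e.1 = 2) && (decide (x.1 = 0) || (decide (x.1 = 1) && hasL φ x.2.1 e.2.2 e.2.1) ||
    (decide (x.1 = 2) && decide (x.2 = e.2)))) ||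
  (decide (e.1 = 3) && ((decide (x.1 = 2) || decide (x.1 = 3)) && decide (x.2.1 = e.2.1))) ||
  (decide (e.1 = 4) && (decide (x.1 = 3) && decide (x.2.1 = e.2.1)))

/-- Adjacency. -/
def adj (φ : List Cl) (u v : Lab) : Bool :=
  (!u.1 && v.1 && inc φ u.2 v.2) || (u.1 && !v.1 && inc φ v.2 u.2)

/-- The labels. -/
def labs (φ : List Cl) : List Lab :=
  [(false, 0, 0, false), (true, 0, 0, false)] ++
  ((List.range φ.length).map fun c => (false, 1, c, false)) ++
  ((List.range (3 * φ.length)).flatMap fun i =>
    [(false, 2, i, false), (false, 2, i, true), (false, 3, i, false),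
      (true, 2, i, false), (true, 2, i, true), (true, 3, i, false), (true, 4, i, false)])

/-- Validity of labels. -/
def Valid (φ : List Cl) (x : Lab) : Prop :=
  (x.2.1 = 0 ∧ x.2.2 = (0, false)) ∨
  (x.1 = false ∧ x.2.1 = 1 ∧ x.2.2.1 < φ.length ∧ x.2.2.2 = false) ∨
  (x.2.1 = 2 ∧ x.2.2.1 < 3 * φ.length) ∨
  (x.2.1 = 3 ∧ x.2.2.1 < 3 * φ.length ∧ x.2.2.2 = false) ∨
  (x.1 = true ∧ x.2.1 = 4 ∧ x.2.2.1 < 3 * φ.length ∧ x.2.2.2 = false)

variable {φ : List Cl}

theorem mem_labs {x : Lab} : x ∈ labs φ ↔ Valid φ x := by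
  obtain ⟨s, k, i, b⟩ := x
  unfold labs Valid
  simp only [List.mem_append, List.mem_cons, List.not_mem_nil, or_false, List.mem_map,
    List.mem_range, List.mem_flatMap, Prod.mk.injEq]
  constructor
  · rintro ((h | h) | ⟨j, hj, h⟩)
    · rcases h with ⟨rfl, rfl, rfl, rfl⟩ | ⟨rfl, rfl, rfl, rfl⟩ <;> simp
    · obtain ⟨c, hc, rfl, rfl, rfl, rfl⟩ := h
      simp [hc]
    · rcases h with h | h | h | h | h | h | h <;> obtain ⟨rfl, rfl, rfl, rfl⟩ := h <;> simp [hj]
  · rintro (⟨rfl, rfl, rfl⟩ | ⟨rfl, rfl, h, rfl⟩ | ⟨rfl, h⟩ | ⟨rfl, h, rfl⟩ | ⟨rfl, rfl, h, rfl⟩)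
    · cases s <;> simp
    · left; right
      exact ⟨i, h, rfl, rfl, rfl, rfl⟩
    · right
      refine ⟨i, h, ?_⟩
      cases s <;> cases b <;> simp
    · right
      refine ⟨i, h, ?_⟩
      cases s <;> simp
    · right
      refine ⟨i, h, ?_⟩
      simp

theorem labs_nodup : (labs φ).Nodup := by
  unfold labs
  rw [List.nodup_append]
  refine ⟨?_, ?_, ?_⟩
  · rw [List.nodup_append]
    refine ⟨by simp, List.nodup_range.map (fun a b h => by simpa using h), ?_⟩
    intro x hx y hy hxy
    subst hxy
    obtain ⟨c, _, rfl⟩ := List.mem_map.1 hy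
    simp at hx
  · refine nodup_flatMap_of (fun x : Lab => x.2.2.1) List.nodup_range (fun i _ => by simp) ?_
    intro i _ b hb
    simp only [List.mem_cons, List.not_mem_nil, or_false] at hb
    rcases hb with rfl | rfl | rfl | rfl | rfl | rfl | rfl <;> rfl
  · intro x hx y hy hxy
    subst hxy
    simp only [List.mem_flatMap, List.mem_cons, List.not_mem_nil, or_false] at hy
    obtain ⟨i, _, h⟩ := hy
    rw [List.mem_append] at hx
    rcases hx with hx | hx
    · simp only [List.mem_cons, List.not_mem_nil, or_false] at hx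
      rcases h with h | h | h | h | h | h | h <;> subst h <;> simp at hx
    · obtain ⟨c, _, hc⟩ := List.mem_map.1 hx
      rcases h with h | h | h | h | h | h | h <;> subst h <;> simp at hc

theorem adj_symm (u v : Lab) : adj φ u v = adj φ v u := by
  unfold adj
  rw [Bool.or_comm, Bool.and_comm u.1, Bool.and_comm (!u.1)]

theorem adj_irrefl (u : Lab) : adj φ u u = false := by
  unfold adj
  cases u.1 <;> simp

/-- The graph. -/
abbrev GG (φ : List Cl) : SimpleGraph {x // x ∈ labs φ} := labGraph (labs φ) (adj φ)

theorem GG_adj (u v : {x // x ∈ labs φ}) : (GG φ).Adj u v ↔ adj φ u.1 v.1 = true := by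
  simp only [labGraph]
  rw [adj_symm v.1 u.1, or_self]
  constructor
  · exact fun h => h.2
  · intro h
    refine ⟨?_, h⟩
    rintro rfl
    rw [adj_irrefl] at h
    exact absurd h (by simp)

theorem GG_bipartite : (GG φ).IsBipartite := by
  refine ⟨SimpleGraph.Coloring.mk (fun v => if v.1.1 then 1 else 0) ?_⟩
  intro u v h
  rw [GG_adj] at h
  unfold adj at h
  revert h
  cases u.1.1 <;> cases v.1.1 <;> simp

/-- Two labels have a common neighbour. -/
def Com (φ : List Cl) (x y : Lab) : Prop := ∃ t ∈ labs φ, adj φ x t = true ∧ adj φ y t = true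

theorem Com.symm {x y : Lab} (h : Com φ x y) : Com φ y x := by
  obtain ⟨t, ht, h1, h2⟩ := h
  exact ⟨t, ht, h2, h1⟩

/-- Packings of labels. -/
def Pk (φ : List Cl) (S : Finset Lab) : Prop :=
  (∀ x ∈ S, x ∈ labs φ) ∧ ∀ x ∈ S, ∀ y ∈ S, x ≠ y → ¬ Com φ x y

theorem pk_map {S : Finset {x // x ∈ labs φ}} :
    Pk φ (S.map (Function.Embedding.subtype _)) ↔ OpenPacking (GG φ) S := by
  constructor
  · intro h u hu v hv huv t ht
    rw [GG_adj, GG_adj] at ht
    exact h.2 u.1 (Finset.mem_map_of_mem _ hu) v.1 (Finset.mem_map_of_mem _ hv)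
      (fun h' => huv (Subtype.ext h')) ⟨t.1, t.2, ht.1, ht.2⟩
  · intro h
    refine ⟨fun x hx => ?_, fun x hx y hy hxy => ?_⟩
    · obtain ⟨a, _, rfl⟩ := Finset.mem_map.1 hx
      exact a.2
    · obtain ⟨a, ha, rfl⟩ := Finset.mem_map.1 hx
      obtain ⟨b, hb, rfl⟩ := Finset.mem_map.1 hy
      rintro ⟨t, ht, h1, h2⟩
      exact h a ha b hb (fun h' => hxy (by rw [h'])) ⟨t, ht⟩
        ⟨(GG_adj _ _).2 h1, (GG_adj _ _).2 h2⟩

/-- Maximal packings of labels. -/
def MPk (φ : List Cl) (S : Finset Lab) : Prop :=
  Pk φ S ∧ ∀ x ∈ labs φ, x ∉ S → ∃ y ∈ S, Com φ x y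

theorem mpk_map {S : Finset {x // x ∈ labs φ}} :
    MPk φ (S.map (Function.Embedding.subtype _)) ↔ MaxPacking (GG φ) S := by
  classical
  unfold MPk MaxPacking
  rw [pk_map]
  refine and_congr_right fun hp => ?_
  constructor
  · intro h T hST hT
    obtain ⟨x, hxT, hxS⟩ := Finset.exists_of_ssubset hST
    obtain ⟨y, hy, t, ht, h1, h2⟩ := h x.1 x.2
      (fun h' => hxS ((Finset.mem_map' (Function.Embedding.subtype _)).1 h'))
    obtain ⟨b, hb, rfl⟩ := Finset.mem_map.1 hy
    exact hT x hxT b (hST.1 hb) (fun h' => hxS (by rw [h']; exact hb)) ⟨t, ht⟩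
      ⟨(GG_adj _ _).2 h1, (GG_adj _ _).2 h2⟩
  · intro h x hx hxS
    by_contra hcon
    push Not at hcon
    have hxS' : (⟨x, hx⟩ : {x // x ∈ labs φ}) ∉ S := by
      intro h'
      exact hxS (Finset.mem_map_of_mem _ h')
    refine h (insert ⟨x, hx⟩ S) (Finset.ssubset_insert hxS') ?_
    intro u hu v hv huv t ht
    rw [GG_adj, GG_adj] at ht
    rcases Finset.mem_insert.1 hu with rfl | hu
    · rcases Finset.mem_insert.1 hv with rfl | hv
      · exact huv rfl
      · exact hcon v.1 (Finset.mem_map_of_mem _ hv) ⟨t.1, t.2, ht.1, ht.2⟩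
    · rcases Finset.mem_insert.1 hv with rfl | hv
      · exact hcon u.1 (Finset.mem_map_of_mem _ hu) ⟨t.1, t.2, ht.2, ht.1⟩
      · exact hp u hu v hv huv t ⟨(GG_adj _ _).2 ht.1, (GG_adj _ _).2 ht.2⟩

/-! ### Slots -/

/-- The slot of a label. -/
def slot (x : Lab) : Bool × Option ℕ :=
  (x.1, if x.1 = false then (if x.2.1 ≤ 1 then none else some x.2.2.1)
    else (if x.2.1 ≤ 2 then none else some x.2.2.1))

theorem com_of_slot {x y : Lab} (hx : x ∈ labs φ) (hy : y ∈ labs φ) (h : slot x = slot y) :
    Com φ x y := by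
  rw [mem_labs] at hx hy
  obtain ⟨s, k, i, b⟩ := x
  obtain ⟨s', k', i', b'⟩ := y
  simp only [slot, Prod.mk.injEq] at h
  obtain ⟨rfl, h⟩ := h
  simp only [Valid] at hx hy
  cases s
  · simp only [if_true] at h
    by_cases hk : k ≤ 1
    · by_cases hk' : k' ≤ 1
      · refine ⟨(true, 0, 0, false), by simp [mem_labs, Valid], ?_, ?_⟩
        · have : k = 0 ∨ k = 1 := by omega
          rcases this with rfl | rfl <;> simp [adj, inc]
        · have : k' = 0 ∨ k' = 1 := by omega
          rcases this with rfl | rfl <;> simp [adj, inc]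
      · rw [if_pos hk, if_neg hk'] at h
        exact absurd h (by simp)
    · by_cases hk' : k' ≤ 1
      · rw [if_neg hk, if_pos hk'] at h
        exact absurd h (by simp)
      · rw [if_neg hk, if_neg hk'] at h
        simp only [Option.some.injEq] at h
        subst h
        have e1 : k = 2 ∨ k = 3 := by
          rcases hx with h | h | h | h | h
          · omega
          · omega
          · exact Or.inl h.1
          · exact Or.inr h.1
          · exact absurd h.1 (by simp)
        have e2 : k' = 2 ∨ k' = 3 := by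
          rcases hy with h | h | h | h | h
          · omega
          · omega
          · exact Or.inl h.1
          · exact Or.inr h.1
          · exact absurd h.1 (by simp)
        have e3 : i < 3 * φ.length := by
          rcases hx with h | h | h | h | h
          · omega
          · omega
          · exact h.2
          · exact h.2.1
          · exact h.2.2.1
        refine ⟨(true, 3, i, false), by simp [mem_labs, Valid, e3], ?_, ?_⟩
        · rcases e1 with rfl | rfl <;> simp [adj, inc]
        · rcases e2 with rfl | rfl <;> simp [adj, inc]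
  · simp only [Bool.true_eq_false, if_false] at h
    by_cases hk : k ≤ 2
    · by_cases hk' : k' ≤ 2
      · have e1 : k = 0 ∨ k = 2 := by
          rcases hx with h | h | h | h | h
          · exact Or.inl h.1
          · exact absurd h.1 (by simp)
          · exact Or.inr h.1
          · omega
          · omega
        have e2 : k' = 0 ∨ k' = 2 := by
          rcases hy with h | h | h | h | h
          · exact Or.inl h.1
          · exact absurd h.1 (by simp)
          · exact Or.inr h.1
          · omega
          · omega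
        refine ⟨(false, 0, 0, false), by simp [mem_labs, Valid], ?_, ?_⟩
        · rcases e1 with rfl | rfl <;> simp [adj, inc]
        · rcases e2 with rfl | rfl <;> simp [adj, inc]
      · rw [if_pos hk, if_neg hk'] at h
        exact absurd h (by simp)
    · by_cases hk' : k' ≤ 2
      · rw [if_neg hk, if_pos hk'] at h
        exact absurd h (by simp)
      · rw [if_neg hk, if_neg hk'] at h
        simp only [Option.some.injEq] at h
        subst h
        have e1 : k = 3 ∨ k = 4 := by
          rcases hx with h | h | h | h | h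
          · omega
          · omega
          · omega
          · exact Or.inl h.1
          · exact Or.inr h.2.1
        have e2 : k' = 3 ∨ k' = 4 := by
          rcases hy with h | h | h | h | h
          · omega
          · omega
          · omega
          · exact Or.inl h.1
          · exact Or.inr h.2.1
        have e3 : i < 3 * φ.length := by
          rcases hx with h | h | h | h | h
          · omega
          · omega
          · omega
          · exact h.2.1
          · exact h.2.2.1
        refine ⟨(false, 3, i, false), by simp [mem_labs, Valid, e3], ?_, ?_⟩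
        · rcases e1 with rfl | rfl <;> simp [adj, inc]
        · rcases e2 with rfl | rfl <;> simp [adj, inc]

/-- The slots. -/
def slotSet (φ : List Cl) : Finset (Bool × Option ℕ) :=
  Finset.univ ×ˢ (insert none ((Finset.range (3 * φ.length)).image some))

theorem slotSet_card : (slotSet φ).card = 2 * (3 * φ.length + 1) := by
  unfold slotSet
  rw [Finset.card_product, Finset.card_insert_of_notMem (by simp),
    Finset.card_image_of_injective _ (Option.some_injective _)]
  simp

theorem slot_mem {x : Lab} (hx : x ∈ labs φ) : slot x ∈ slotSet φ := by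
  rw [mem_labs] at hx
  obtain ⟨s, k, i, b⟩ := x
  simp only [Valid] at hx
  unfold slotSet slot
  simp only [Finset.mem_product, Finset.mem_univ, true_and, Finset.mem_insert, Finset.mem_image,
    Finset.mem_range]
  cases s
  · simp only [if_true]
    split_ifs with h
    · exact Or.inl rfl
    · right
      refine ⟨i, ?_, rfl⟩
      rcases hx with h | h | h | h | h
      · omega
      · omega
      · exact h.2
      · exact h.2.1
      · exact h.2.2.1
  · simp only [Bool.true_eq_false, if_false]
    split_ifs with h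
    · exact Or.inl rfl
    · right
      refine ⟨i, ?_, rfl⟩
      rcases hx with h | h | h | h | h
      · omega
      · omega
      · exact h.2
      · exact h.2.1
      · exact h.2.2.1

theorem slot_inj {S : Finset Lab} (hS : Pk φ S) : Set.InjOn slot (S : Set Lab) := by
  intro x hx y hy h
  by_contra hne
  exact hS.2 x hx y hy hne (com_of_slot (hS.1 x hx) (hS.1 y hy) h)

/-- The size is the number of the slots which are hit. -/
theorem card_slots {S : Finset Lab} (hS : Pk φ S) : S.card = (S.image slot).card :=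
  (Finset.card_image_of_injOn (slot_inj hS)).symm

/-- A packing which hits all slots is maximal. -/
theorem mpk_of_all {S : Finset Lab} (hS : Pk φ S) (h : ∀ a ∈ slotSet φ, ∃ x ∈ S, slot x = a) :
    MPk φ S ∧ S.card = 2 * (3 * φ.length + 1) := by
  refine ⟨⟨hS, fun x hx _ => ?_⟩, ?_⟩
  · obtain ⟨y, hy, hxy⟩ := h _ (slot_mem hx)
    exact ⟨y, hy, com_of_slot hx (hS.1 y hy) hxy.symm⟩
  · rw [card_slots hS, ← slotSet_card]
    congr 1
    ext a
    rw [Finset.mem_image]
    constructor
    · rintro ⟨x, hx, rfl⟩
      exact slot_mem (hS.1 x hx)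
    · exact h a

end Pool.Agent.X248.OP
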